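import Pool.Agent.MWI.StmtsT

/-!
# Squad MWI, block T, row DCM (MP_23468a_al): decomposition of a word
-/

set_option autoImplicit false

namespace Pool.Agent.MWI.H62

open Pool.Agent.Helper14_MV Pool.Agent.Helper2_MV Pool.Agent.MWF

theorem fm_congr {P : List ℕ} {f g : ℕ → List ℕ} (h : ∀ i ∈ P, f i = g i) :
    P.flatMap f = P.flatMap g := by
  induction P with
  | nil => rfl
  | cons a P ih =>
    rw [List.flatMap_cons, List.flatMap_cons, h a List.mem_cons_self,
      ih (fun i hi => h i (List.mem_cons_of_mem _ hi))]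

theorem pA_congr {P : List ℕ} {a b a' b' : ℕ → ℕ} (h : ∀ i ∈ P, a i = a' i ∧ b i = b' i) :
    pA a b P = pA a' b' P :=
  fm_congr (fun i hi => by rw [(h i hi).1, (h i hi).2])

theorem pC_congr {P : List ℕ} {a b a' b' : ℕ → ℕ} (h : ∀ i ∈ P, a i = a' i ∧ b i = b' i) :
    pC a b P = pC a' b' P :=
  fm_congr (fun i hi => by rw [(h i hi).1, (h i hi).2])

theorem zeros {l : List ℕ} (h : l.filter ny = []) : ∃ k, l = List.replicate k 0 := by
  refine ⟨l.length, ?_⟩
  rw [List.eq_replicate_iff]
  refine ⟨rfl, ?_⟩
  intro c hc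
  have := List.filter_eq_nil_iff.1 h c hc
  simpa [ny] using this

theorem filter_rep (k : ℕ) : (List.replicate k 0).filter ny = [] := by
  rw [List.filter_eq_nil_iff]
  intro c hc
  rw [List.eq_of_mem_replicate hc]
  simp [ny]

theorem head {w r : List ℕ} {c : ℕ} (h : w.filter ny = c :: r) :
    ∃ k w', w = List.replicate k 0 ++ c :: w' ∧ w'.filter ny = r := by
  rw [List.filter_eq_cons_iff] at h
  obtain ⟨l1, l2, rfl, h1, _, h3⟩ := h
  obtain ⟨k, hk⟩ := zeros (l := l1) (by
    rw [List.filter_eq_nil_iff]
    exact h1)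
  exact ⟨k, l2, by rw [hk], h3⟩

theorem left (P : List ℕ) : P.Nodup → ∀ w X : List ℕ, w.filter ny = pl P ++ X →
    ∃ (a b : ℕ → ℕ) (w' : List ℕ), w = pA a b P ++ w' ∧ w'.filter ny = X := by
  induction P with
  | nil =>
    intro _ w X h
    exact ⟨fun _ => 0, fun _ => 0, w, rfl, h⟩
  | cons i P ih =>
    intro hn w X h
    rw [List.nodup_cons] at hn
    have e : pl (i :: P) ++ X = (3 * i + 2) :: (3 * i + 1) :: (pl P ++ X) := by
      simp [pl]
    rw [e] at h
    obtain ⟨k, w1, rfl, h1⟩ := head h
    obtain ⟨l, w2, rfl, h2⟩ := head h1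
    obtain ⟨a, b, w', rfl, h3⟩ := ih hn.2 w2 X h2
    refine ⟨fun j => if j = i then k else a j, fun j => if j = i then l else b j, w', ?_, h3⟩
    have e2 : pA (fun j => if j = i then k else a j) (fun j => if j = i then l else b j)
        (i :: P) = List.replicate k 0 ++ (3 * i + 2) :: (List.replicate l 0 ++ [3 * i + 1]) ++
          pA (fun j => if j = i then k else a j) (fun j => if j = i then l else b j) P := by
      unfold pA
      rw [List.flatMap_cons]
      simp only [if_true]
    have e3 : pA (fun j => if j = i then k else a j) (fun j => if j = i then l else b j) P =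
        pA a b P := by
      apply pA_congr
      intro j hj
      have : j ≠ i := fun hji => hn.1 (hji ▸ hj)
      simp [this]
    rw [e2, e3]
    simp

theorem right (Q : List ℕ) : Q.Nodup → ∀ w : List ℕ, w.filter ny = pr Q →
    ∃ (k : ℕ) (a b : ℕ → ℕ), w = List.replicate k 0 ++ pC a b Q := by
  induction Q with
  | nil =>
    intro _ w h
    obtain ⟨k, hk⟩ := zeros (l := w) h
    refine ⟨k, fun _ => 0, fun _ => 0, ?_⟩
    rw [hk]
    simp [pC]
  | cons i Q ih =>
    intro hn w h
    rw [List.nodup_cons] at hn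
    have e : pr (i :: Q) = (3 * i + 1) :: (3 * i + 2) :: pr Q := by
      simp [pr]
    rw [e] at h
    obtain ⟨k, w1, rfl, h1⟩ := head h
    obtain ⟨l, w2, rfl, h2⟩ := head h1
    obtain ⟨k2, a, b, rfl⟩ := ih hn.2 w2 h2
    refine ⟨k, fun j => if j = i then l else a j, fun j => if j = i then k2 else b j, ?_⟩
    have e2 : pC (fun j => if j = i then l else a j) (fun j => if j = i then k2 else b j)
        (i :: Q) = (3 * i + 1) :: (List.replicate l 0 ++ (3 * i + 2) :: List.replicate k2 0) ++
          pC (fun j => if j = i then l else a j) (fun j => if j = i then k2 else b j) Q := by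
      unfold pC
      rw [List.flatMap_cons]
      simp only [if_true]
    have e3 : pC (fun j => if j = i then l else a j) (fun j => if j = i then k2 else b j) Q =
        pC a b Q := by
      apply pC_congr
      intro j hj
      have : j ≠ i := fun hji => hn.1 (hji ▸ hj)
      simp [this]
    rw [e2, e3]
    simp

theorem dcm : DcmStmt := by
  intro P Q h w m hp hw
  have hnd : (P ++ Q).Nodup := hp.nodup_iff.2 List.nodup_range
  rw [List.nodup_append] at hnd
  obtain ⟨hP, hQ, hPQ⟩ := hnd
  obtain ⟨a1, b1, w1, rfl, h1⟩ := left P hP w _ hw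
  rw [List.filter_eq_append_iff] at h1
  obtain ⟨M0, w2, rfl, h2, h3⟩ := h1
  obtain ⟨k, a2, b2, rfl⟩ := right Q hQ w2 h3
  refine ⟨fun i => if i ∈ P then a1 i else a2 i, fun i => if i ∈ P then b1 i else b2 i,
    M0 ++ List.replicate k 0, ?_, ?_⟩
  · have e1 : pA (fun i => if i ∈ P then a1 i else a2 i) (fun i => if i ∈ P then b1 i else b2 i)
        P = pA a1 b1 P := by
      apply pA_congr
      intro i hi
      simp [hi]
    have e2 : pC (fun i => if i ∈ P then a1 i else a2 i) (fun i => if i ∈ P then b1 i else b2 i)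
        Q = pC a2 b2 Q := by
      apply pC_congr
      intro i hi
      have : i ∉ P := fun hiP => hPQ i hiP i hi rfl
      simp [this]
    unfold bb
    rw [e1, e2]
    simp
  · rw [List.filter_append, h2, filter_rep, List.append_nil]

end Pool.Agent.MWI.H62
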